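import Mathlib

/-!
# Metric mean dimension of Hölder maps of the interval

If `φ : [0,1] → [0,1]` is `α`-Hölder then its upper metric mean dimension is at most `1 - α`.
-/

set_option autoImplicit false

open Set Filter Topology

namespace Pool.Agent.Q188.HM

/-- the unit interval -/
abbrev I : Type := Set.Icc (0 : ℝ) 1

/-- `d_n(x, y) = max_{0 ≤ k < n} |φ^k x - φ^k y|` -/
noncomputable def bowenDist (φ : I → I) (n : ℕ) (x y : I) : ℝ :=
  ⨆ k : Fin n, |((φ^[k] x : I) : ℝ) - ((φ^[k] y : I) : ℝ)|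

/-- `E` is `(n, ε)`-separated: `d_n(x, y) > ε` for all distinct `x, y ∈ E` -/
def IsSep (φ : I → I) (n : ℕ) (ε : ℝ) (E : Finset I) : Prop :=
  ∀ x ∈ E, ∀ y ∈ E, x ≠ y → ε < bowenDist φ n x y

/-- `s(n, ε)`, the largest cardinality of an `(n, ε)`-separated set -/
noncomputable def sepNumber (φ : I → I) (n : ℕ) (ε : ℝ) : ℕ :=
  sSup {m : ℕ | ∃ E : Finset I, E.card = m ∧ IsSep φ n ε E}

/-- `h(φ, ε) = limsup_n (1/n) log s(n, ε)` -/
noncomputable def sepEntropy (φ : I → I) (ε : ℝ) : EReal :=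
  limsup (fun n : ℕ => ((Real.log (sepNumber φ n ε) / n : ℝ) : EReal)) atTop

/-- upper metric mean dimension `limsup_{ε → 0} h(φ, ε) / |log ε|` -/
noncomputable def upperMdim (φ : I → I) : EReal :=
  limsup (fun ε : ℝ => sepEntropy φ ε / ((|Real.log ε| : ℝ) : EReal)) (𝓝[>] 0)

/-- lower metric mean dimension `liminf_{ε → 0} h(φ, ε) / |log ε|` -/
noncomputable def lowerMdim (φ : I → I) : EReal :=
  liminf (fun ε : ℝ => sepEntropy φ ε / ((|Real.log ε| : ℝ) : EReal)) (𝓝[>] 0)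

/-- `φ` is `α`-Hölder continuous -/
def IsHolder (φ : I → I) (α : ℝ) : Prop :=
  ∃ K : ℝ, 0 < K ∧ ∀ x y : I, |(φ x : ℝ) - (φ y : ℝ)| ≤ K * |(x : ℝ) - (y : ℝ)| ^ α

lemma exists_of_lt_bowenDist {φ : I → I} {n : ℕ} {ε : ℝ} (hε : 0 < ε) {x y : I}
    (h : ε < bowenDist φ n x y) :
    ∃ k < n, ε < |((φ^[k] x : I) : ℝ) - ((φ^[k] y : I) : ℝ)| := by
  by_contra hcon
  push Not at hcon
  have : bowenDist φ n x y ≤ ε := Real.iSup_le (fun k => hcon k k.2) hε.le
  linarith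

/-- cell index -/
noncomputable def idx (N : ℕ) (x : I) : ℤ := ⌊(x : ℝ) * N⌋

/-- reference point of a cell -/
noncomputable def ref (N : ℕ) (i : ℤ) : I := Set.projIcc 0 1 zero_le_one ((i : ℝ) / N)

lemma idx_nonneg (N : ℕ) (x : I) : 0 ≤ idx N x :=
  Int.floor_nonneg.2 (mul_nonneg x.2.1 (Nat.cast_nonneg _))

lemma idx_le (N : ℕ) (x : I) : idx N x ≤ N := by
  have h : (x : ℝ) * N ≤ N := mul_le_of_le_one_left (Nat.cast_nonneg _) x.2.2
  have := Int.floor_le_floor h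
  simpa [idx] using this

lemma ref_idx {N : ℕ} (hN : 0 < N) (x : I) :
    |(x : ℝ) - (ref N (idx N x) : ℝ)| ≤ 1 / N := by
  have hN' : (0 : ℝ) < N := by exact_mod_cast hN
  have h0 : (0 : ℝ) ≤ (idx N x : ℝ) / N := div_nonneg (by exact_mod_cast idx_nonneg N x) hN'.le
  have h1 : (idx N x : ℝ) / N ≤ 1 := by
    rw [div_le_one hN']
    exact_mod_cast idx_le N x
  have h2 : (ref N (idx N x) : ℝ) = (idx N x : ℝ) / N := by
    rw [ref, Set.projIcc_of_mem zero_le_one ⟨h0, h1⟩]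
  rw [h2]
  have h3 := Int.floor_le ((x : ℝ) * N)
  have h4 := Int.lt_floor_add_one ((x : ℝ) * N)
  have h5 : (x : ℝ) - (idx N x : ℝ) / N = ((x : ℝ) * N - idx N x) / N := by
    field_simp
  rw [h5, abs_div, abs_of_pos hN']
  gcongr
  rw [abs_le]
  constructor
  · change -1 ≤ (x : ℝ) * N - ⌊(x : ℝ) * N⌋
    linarith
  · change (x : ℝ) * N - ⌊(x : ℝ) * N⌋ ≤ 1
    linarith

/-- increments of the itinerary -/
noncomputable def inc (φ : I → I) (N : ℕ) (x : I) : ℤ :=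
  idx N (φ x) - idx N (φ (ref N (idx N x)))

lemma abs_floor_sub_floor_le {a b c : ℝ} (h : |a - b| ≤ c) : |⌊a⌋ - ⌊b⌋| ≤ ⌊c⌋ + 1 := by
  have h1 := Int.floor_le a
  have h2 := Int.lt_floor_add_one a
  have h3 := Int.floor_le b
  have h4 := Int.lt_floor_add_one b
  have h5 := Int.lt_floor_add_one c
  rw [abs_le] at h ⊢
  constructor
  · have : (-(⌊c⌋ + 1) - 1 : ℝ) < ((⌊a⌋ - ⌊b⌋ : ℤ) : ℝ) := by
      push_cast
      linarith [h.1, h.2]
    have : (-(⌊c⌋ + 1) - 1 : ℤ) < ⌊a⌋ - ⌊b⌋ := by exact_mod_cast this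
    omega
  · have : ((⌊a⌋ - ⌊b⌋ : ℤ) : ℝ) < (⌊c⌋ + 1) + 1 := by
      push_cast
      linarith [h.1, h.2]
    have : ⌊a⌋ - ⌊b⌋ < (⌊c⌋ + 1) + 1 := by exact_mod_cast this
    omega

lemma inc_bound {φ : I → I} {α K : ℝ} (hα : 0 ≤ α)
    (hφ : ∀ x y : I, |(φ x : ℝ) - (φ y : ℝ)| ≤ K * |(x : ℝ) - (y : ℝ)| ^ α)
    (hK : 0 < K) {N : ℕ} (hN : 0 < N) (x : I) :
    |inc φ N x| ≤ ⌊K * (N : ℝ) ^ (1 - α)⌋ + 1 := by
  have hN' : (0 : ℝ) < N := by exact_mod_cast hN
  apply abs_floor_sub_floor_le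
  rw [← sub_mul, abs_mul, abs_of_pos hN']
  have h1 := hφ x (ref N (idx N x))
  have h2 := ref_idx hN x
  have h3 : |(x : ℝ) - (ref N (idx N x) : ℝ)| ^ α ≤ (1 / (N : ℝ)) ^ α :=
    Real.rpow_le_rpow (abs_nonneg _) h2 hα
  have h4 : (1 / (N : ℝ)) ^ α * N = (N : ℝ) ^ (1 - α) := by
    rw [one_div, Real.inv_rpow hN'.le, Real.rpow_sub hN', Real.rpow_one]
    field_simp
  calc |(φ x : ℝ) - (φ (ref N (idx N x)) : ℝ)| * N
      ≤ (K * (1 / (N : ℝ)) ^ α) * N := by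
        gcongr
        exact h1.trans (by gcongr)
    _ = K * (N : ℝ) ^ (1 - α) := by rw [mul_assoc, h4]

lemma card_le {φ : I → I} {α K : ℝ} (hα : 0 ≤ α)
    (hφ : ∀ x y : I, |(φ x : ℝ) - (φ y : ℝ)| ≤ K * |(x : ℝ) - (y : ℝ)| ^ α)
    (hK : 0 < K) {N : ℕ} (hN : 0 < N) {ε : ℝ} (hε : 0 < ε) (hNε : 1 / (N : ℝ) ≤ ε) {n : ℕ}
    {E : Finset I} (hE : IsSep φ n ε E) :
    (E.card : ℝ) ≤ (N + 1) * (2 * (K * (N : ℝ) ^ (1 - α) + 1) + 1) ^ n := by
  classical
  have hN' : (0 : ℝ) < N := by exact_mod_cast hN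
  set M : ℤ := ⌊K * (N : ℝ) ^ (1 - α)⌋ + 1 with hM
  have hM0 : 0 ≤ M := by
    have : 0 ≤ ⌊K * (N : ℝ) ^ (1 - α)⌋ := Int.floor_nonneg.2 (by positivity)
    omega
  let T : Finset (ℤ × (Fin n → ℤ)) :=
    Finset.Icc (0 : ℤ) N ×ˢ Fintype.piFinset (fun _ : Fin n => Finset.Icc (-M) M)
  let c : I → ℤ × (Fin n → ℤ) := fun x => (idx N x, fun k => inc φ N (φ^[k] x))
  have hcT : Set.MapsTo c E T := by
    intro x _
    simp only [T, c, Finset.coe_product, Set.mem_prod, Finset.mem_coe, Finset.mem_Icc,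
      Fintype.mem_piFinset]
    exact ⟨⟨idx_nonneg N x, idx_le N x⟩, fun k => abs_le.1 (inc_bound hα hφ hK hN _)⟩
  have hinj : Set.InjOn c E := by
    intro x hx y hy hxy
    by_contra hne
    obtain ⟨k, hk, hlt⟩ := exists_of_lt_bowenDist hε (hE x hx y hy hne)
    have h0 : idx N x = idx N y := congrArg Prod.fst hxy
    have h1 : ∀ j < n, inc φ N (φ^[j] x) = inc φ N (φ^[j] y) := fun j hj =>
      congrFun (congrArg Prod.snd hxy) ⟨j, hj⟩
    have h2 : ∀ j, j ≤ k → idx N (φ^[j] x) = idx N (φ^[j] y) := by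
      intro j
      induction j with
      | zero => intro _; exact h0
      | succ j ih =>
        intro hj
        have h3 := ih (by omega)
        have h4 := h1 j (by omega)
        simp only [inc] at h4
        rw [h3] at h4
        rw [Function.iterate_succ_apply', Function.iterate_succ_apply']
        exact sub_left_injective h4
    have h5 := h2 k le_rfl
    have h6 : |((φ^[k] x : I) : ℝ) - ((φ^[k] y : I) : ℝ)| ≤ 1 / N := by
      have h7 := Int.abs_sub_lt_one_of_floor_eq_floor h5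
      rw [← sub_mul, abs_mul, abs_of_pos hN'] at h7
      rw [le_div_iff₀ hN']
      exact h7.le
    linarith
  have hcard := Finset.card_le_card_of_injOn c hcT hinj
  have hT : (T.card : ℝ) = (N + 1) * (2 * M + 1) ^ n := by
    have h1 : (Finset.Icc (0 : ℤ) N).card = N + 1 := by simp
    have h2 : ((Finset.Icc (-M) M).card : ℝ) = 2 * M + 1 := by
      rw [Int.card_Icc]
      have : ((M + 1 - -M).toNat : ℤ) = 2 * M + 1 := by omega
      exact_mod_cast this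
    simp only [T, Finset.card_product, Fintype.card_piFinset, Finset.prod_const,
      Finset.card_univ, Fintype.card_fin]
    rw [h1]
    push_cast
    rw [h2]
  calc (E.card : ℝ) ≤ T.card := by exact_mod_cast hcard
    _ = (N + 1) * (2 * M + 1) ^ n := hT
    _ ≤ _ := by
      have h3 : (M : ℝ) ≤ K * (N : ℝ) ^ (1 - α) + 1 := by
        rw [hM]; push_cast
        linarith [Int.floor_le (K * (N : ℝ) ^ (1 - α))]
      have h4 : (0 : ℝ) ≤ M := by exact_mod_cast hM0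
      gcongr

lemma sepNumber_le {φ : I → I} {α K : ℝ} (hα : 0 ≤ α)
    (hφ : ∀ x y : I, |(φ x : ℝ) - (φ y : ℝ)| ≤ K * |(x : ℝ) - (y : ℝ)| ^ α)
    (hK : 0 < K) {N : ℕ} (hN : 0 < N) {ε : ℝ} (hε : 0 < ε) (hNε : 1 / (N : ℝ) ≤ ε) (n : ℕ) :
    (sepNumber φ n ε : ℝ) ≤ (N + 1) * (2 * (K * (N : ℝ) ^ (1 - α) + 1) + 1) ^ n := by
  have h0 : (0 : ℝ) ≤ (N + 1) * (2 * (K * (N : ℝ) ^ (1 - α) + 1) + 1) ^ n := by positivity
  rw [← Nat.le_floor_iff h0]
  apply csSup_le'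
  rintro m ⟨E, rfl, hE⟩
  rw [Nat.le_floor_iff h0]
  exact card_le hα hφ hK hN hε hNε hE

lemma sepEntropy_le {φ : I → I} {α K : ℝ} (hα : 0 ≤ α) (hα1 : α ≤ 1)
    (hφ : ∀ x y : I, |(φ x : ℝ) - (φ y : ℝ)| ≤ K * |(x : ℝ) - (y : ℝ)| ^ α)
    (hK : 0 < K) {ε : ℝ} (hε : 0 < ε) (hε1 : ε < 1) :
    sepEntropy φ ε ≤ ((Real.log (4 * K + 6) + (1 - α) * |Real.log ε| : ℝ) : EReal) := by
  set N : ℕ := ⌈1 / ε⌉₊ with hNdef
  have hN1 : 1 / ε ≤ N := Nat.le_ceil _
  have hinv : 1 < 1 / ε := by rw [lt_div_iff₀ hε]; linarith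
  have hN' : (0 : ℝ) < N := by linarith
  have hN : 0 < N := by exact_mod_cast hN'
  have hN2 : (N : ℝ) ≤ 2 / ε := by
    have := Nat.ceil_lt_add_one (by positivity : 0 ≤ 1 / ε)
    have h2 : 2 / ε = 1 / ε + 1 / ε := by ring
    rw [h2]
    linarith
  have hNε : 1 / (N : ℝ) ≤ ε := by
    rw [div_le_iff₀ hN']
    rw [div_le_iff₀ hε] at hN1
    linarith
  set A : ℝ := 2 * (K * (N : ℝ) ^ (1 - α) + 1) + 1 with hA
  have hA1 : 1 ≤ A := by
    have : 0 ≤ K * (N : ℝ) ^ (1 - α) := by positivity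
    linarith
  have hlim : Tendsto (fun n : ℕ => ((Real.log (N + 1) / n + Real.log A : ℝ) : EReal)) atTop
      (𝓝 ((0 + Real.log A : ℝ) : EReal)) := by
    apply (continuous_coe_real_ereal.tendsto _).comp
    exact (tendsto_const_div_atTop_nhds_zero_nat _).add tendsto_const_nhds
  have h1 : sepEntropy φ ε ≤ ((0 + Real.log A : ℝ) : EReal) := by
    rw [← hlim.limsup_eq]
    refine limsup_le_limsup ?_
    · filter_upwards [eventually_gt_atTop 0] with n hn
      have hn' : (0 : ℝ) < n := by exact_mod_cast hn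
      rw [EReal.coe_le_coe_iff]
      have h2 := sepNumber_le hα hφ hK hN hε hNε n
      have h3 : Real.log (sepNumber φ n ε) ≤ Real.log (N + 1) + n * Real.log A := by
        rcases Nat.eq_zero_or_pos (sepNumber φ n ε) with h | h
        · rw [h]
          simp only [Nat.cast_zero, Real.log_zero]
          have := Real.log_nonneg hA1
          have := Real.log_nonneg (by linarith : (1 : ℝ) ≤ N + 1)
          positivity
        · have h4 : (0 : ℝ) < sepNumber φ n ε := by exact_mod_cast h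
          have h5 := Real.log_le_log h4 h2
          rw [Real.log_mul (by positivity) (by positivity), Real.log_pow] at h5
          exact h5
      rw [div_add' _ _ _ hn'.ne', mul_comm (Real.log A)]
      gcongr
  refine h1.trans ?_
  rw [EReal.coe_le_coe_iff, zero_add]
  have hα' : 0 ≤ 1 - α := by linarith
  have h6 : (N : ℝ) ^ (1 - α) ≤ 2 * ε⁻¹ ^ (1 - α) := by
    have h7 : (N : ℝ) ^ (1 - α) ≤ (2 / ε) ^ (1 - α) := Real.rpow_le_rpow hN'.le hN2 hα'
    have h8 : (2 / ε) ^ (1 - α) = 2 ^ (1 - α) * ε⁻¹ ^ (1 - α) := by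
      rw [div_eq_mul_inv, Real.mul_rpow (by norm_num) (by positivity)]
    have h9 : (2 : ℝ) ^ (1 - α) ≤ 2 ^ (1 : ℝ) :=
      Real.rpow_le_rpow_of_exponent_le (by norm_num) (by linarith)
    rw [Real.rpow_one] at h9
    rw [h8] at h7
    have h10 : (0 : ℝ) ≤ ε⁻¹ ^ (1 - α) := by positivity
    nlinarith
  have h11 : 1 ≤ ε⁻¹ ^ (1 - α) :=
    Real.one_le_rpow (by rw [inv_eq_one_div]; exact hinv.le) hα'
  have h12 : A ≤ (4 * K + 6) * ε⁻¹ ^ (1 - α) := by
    rw [hA]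
    nlinarith
  have h13 := Real.log_le_log (by linarith) h12
  rw [Real.log_mul (by positivity) (by positivity), Real.log_rpow (by positivity),
    Real.log_inv] at h13
  have h14 : |Real.log ε| = -Real.log ε := abs_of_neg (Real.log_neg hε hε1)
  rw [h14]
  exact h13

lemma tendsto_abs_log : Tendsto (fun ε : ℝ => |Real.log ε|) (𝓝[>] 0) atTop :=
  tendsto_abs_atBot_atTop.comp Real.tendsto_log_nhdsGT_zero

lemma upperMdim_le {φ : I → I} {α : ℝ} (hα : 0 ≤ α) (hα1 : α ≤ 1) (h : IsHolder φ α) :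
    upperMdim φ ≤ ((1 - α : ℝ) : EReal) := by
  obtain ⟨K, hK, hφ⟩ := h
  have hlim : Tendsto (fun ε : ℝ =>
      ((Real.log (4 * K + 6) / |Real.log ε| + (1 - α) : ℝ) : EReal)) (𝓝[>] 0)
      (𝓝 ((0 + (1 - α) : ℝ) : EReal)) := by
    apply (continuous_coe_real_ereal.tendsto _).comp
    exact (tendsto_abs_log.const_div_atTop _).add tendsto_const_nhds
  rw [zero_add] at hlim
  rw [← hlim.limsup_eq]
  refine limsup_le_limsup ?_
  have hmem : Set.Ioo (0 : ℝ) 1 ∈ 𝓝[>] (0 : ℝ) := Ioo_mem_nhdsGT one_pos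
  filter_upwards [hmem] with ε hε
  have h14 : 0 < |Real.log ε| := abs_pos.2 (Real.log_neg hε.1 hε.2).ne
  have h15 := EReal.div_le_div_right_of_nonneg (c := ((|Real.log ε| : ℝ) : EReal))
    (by exact_mod_cast h14.le) (sepEntropy_le hα hα1 hφ hK hε.1 hε.2)
  refine h15.trans_eq ?_
  rw [← EReal.coe_div]
  congr 1
  field_simp

lemma sepEntropy_nonneg (φ : I → I) (ε : ℝ) : 0 ≤ sepEntropy φ ε := by
  refine le_limsup_of_frequently_le ?_
  · apply Eventually.frequently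
    filter_upwards with n
    have : (0 : ℝ) ≤ Real.log (sepNumber φ n ε) / n := by positivity
    exact_mod_cast this

lemma lowerMdim_nonneg (φ : I → I) : 0 ≤ lowerMdim φ := by
  apply le_liminf_of_le
  · isBoundedDefault
  · filter_upwards with ε
    apply EReal.div_nonneg (sepEntropy_nonneg φ ε)
    exact_mod_cast abs_nonneg _

lemma lowerMdim_le_upperMdim (φ : I → I) : lowerMdim φ ≤ upperMdim φ :=
  liminf_le_limsup

end Pool.Agent.Q188.HM
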